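import Mathlib
import Pool.Agent.Lib.MP_123198_al.Defs
import Pool.Agent.Lib.MP_123198_al.Main

/-!
# Condition (S) does not imply condition (B)

The group is the Weyl group of `F₄` (the automorphism group of the `D₄` lattice) acting diagonally
on five copies of the `D₄` lattice, so `d = 20`; the symmetric admissible set has eight elements.
-/

namespace Pool.Agent.Results.MP_123198_al.SymmetricNotPair

open Pool.Agent.MP_123198_al Matrix

/-- There is a finite subgroup `F` of `GL_20(ℤ)` that satisfies condition (S) (some finite symmetric
set is admissible for `F`) but not condition (B) (no antipodal pair `{v, -v}` is admissible). -/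
theorem result : ∃ F : Subgroup (GL (Fin 20) ℤ),
    (F : Set (GL (Fin 20) ℤ)).Finite ∧ CondS F ∧ ¬ CondB F :=
  ⟨F, finite_F, condS, not_condB⟩

end Pool.Agent.Results.MP_123198_al.SymmetricNotPair
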